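import Pool.Agent.Helper92.BW.GoalsA

/-!
# MP_481f43_lc: packet BW-LOC
-/

namespace Pool.Agent.Helper42.BW

open MeasureTheory Pool.Agent.Helper92.BW
open scoped ENNReal

noncomputable section

theorem ip_add {n : ℕ} (x y z : Fin n → ℝ) : ip x (fun j => y j + z j) = ip x y + ip x z := by
  unfold ip
  rw [← Finset.sum_add_distrib]
  exact Finset.sum_congr rfl fun j _ => by ring

theorem ip_sub {n : ℕ} (x y z : Fin n → ℝ) : ip x (fun j => y j - z j) = ip x y - ip x z := by
  unfold ip
  rw [← Finset.sum_sub_distrib]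
  exact Finset.sum_congr rfl fun j _ => by ring

theorem ip_div {n : ℕ} (x y : Fin n → ℝ) (D : ℝ) : ip x (fun j => y j / D) = ip x y / D := by
  unfold ip
  rw [Finset.sum_div]
  exact Finset.sum_congr rfl fun j _ => by ring

theorem ip_congr {n : ℕ} (x y z : Fin n → ℝ) (h : ∀ j, x j ≠ 0 → y j = z j) :
    ip x y = ip x z := by
  unfold ip
  refine Finset.sum_congr rfl fun j _ => ?_
  by_cases hx : x j = 0
  · rw [hx, zero_mul, zero_mul]
  · rw [h j hx]

theorem abv_le {par : ℕ → ℕ} (h : ∀ i, i ≤ par i) (t : ℕ) (i : ℕ) : i ≤ par^[t] i := by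
  induction t generalizing i with
  | zero => exact le_rfl
  | succ t ih =>
    rw [Function.iterate_succ_apply]
    exact (h i).trans (ih (par i))

theorem abv_trans {par : ℕ → ℕ} {i j k : ℕ} (h1 : Abv par i j) (h2 : Abv par j k) :
    Abv par i k := by
  obtain ⟨t1, rfl⟩ := h1
  obtain ⟨t2, rfl⟩ := h2
  exact ⟨t2 + t1, by rw [Function.iterate_add_apply]⟩

theorem abv_par {par : ℕ → ℕ} (h : ∀ i, i ≤ par i) {i c j : ℕ} (h1 : Abv par i c)
    (h2 : Abv par i j) (hcj : c < j) : par c ≤ j := by
  obtain ⟨t1, rfl⟩ := h1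
  obtain ⟨t2, rfl⟩ := h2
  rcases le_or_gt t2 t1 with ht | ht
  · exfalso
    obtain ⟨k, rfl⟩ := Nat.exists_eq_add_of_le ht
    rw [add_comm, Function.iterate_add_apply] at hcj
    exact absurd (abv_le h k (par^[t2] i)) (not_le.2 hcj)
  · obtain ⟨k, rfl⟩ := Nat.exists_eq_add_of_lt ht
    have e : par^[t1 + k + 1] i = par^[k] (par (par^[t1] i)) := by
      rw [show t1 + k + 1 = k + (1 + t1) by ring, Function.iterate_add_apply,
        Function.iterate_add_apply, Function.iterate_one]
    rw [e]
    exact abv_le h k _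

theorem ps_mono {n : ℕ} {ι : Type} {a : ι → Fin n → ℝ} {s : ι → ℝ} (hs : ∀ r, 0 ≤ s r)
    {τ τ' : ℝ} (h : τ ≤ τ') {u : Fin n → ℝ} (hu : u ∈ PS a s τ) : u ∈ PS a s τ' := by
  intro r
  have h1 := hu r
  have h2 : τ * s r ≤ τ' * s r := mul_le_mul_of_nonneg_right h (hs r)
  linarith

theorem exists_index (G : ℕ) (hG : 1 ≤ G) (x : ℝ) (hx : |x| ≤ 1) :
    ∃ i < 2 * G + 1, |x - ((i : ℝ) - G) / G| ≤ 1 / (2 * G) := by
  have hG0 : (0 : ℝ) < G := by exact_mod_cast hG
  obtain ⟨h1, h2⟩ := abs_le.1 hx
  have h3 : 0 ≤ G * (x + 1) + 1 / 2 := by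
    have : 0 ≤ G * (x + 1) := mul_nonneg hG0.le (by linarith)
    linarith
  refine ⟨⌊G * (x + 1) + 1 / 2⌋₊, ?_, ?_⟩
  · rw [Nat.floor_lt h3]
    push_cast
    nlinarith
  · have h4 := Nat.floor_le h3
    have h5 := Nat.lt_floor_add_one (G * (x + 1) + 1 / 2)
    set i : ℝ := ((⌊G * (x + 1) + 1 / 2⌋₊ : ℕ) : ℝ) with hi
    have e : x - (i - G) / G = (G * (x + 1) - i) / G := by field_simp; ring
    rw [e, abs_div, abs_of_pos hG0, div_le_div_iff₀ hG0 (by positivity)]
    have h6 : |G * (x + 1) - i| ≤ 1 / 2 := abs_le.2 ⟨by linarith, by linarith⟩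
    nlinarith [abs_nonneg (G * (x + 1) - i)]

theorem loc (hT : TlmStmt) (hE : ExtStmt) (hS : SctStmt) (hU : UpcStmt) : LocStmt := by
  intro n k ι E _ par low a s G D ctr g o M X N hC hs hG hD hF hN
  have hGr : (0 : ℝ) < G := by exact_mod_cast hG
  have hDr : (0 : ℝ) < D := by exact_mod_cast hD
  have hM : ∀ v, 0 < M v := fun v => (hF.m1 v).1
  have hsc : ∀ v, 0 < scT par G M v := (hS n par G M hC.2.1).2 hG hM
  have hN0 : ∀ v e, 0 ≤ N v e := fun v e =>
    (hU n k ι E par low a s G D ctr g o M X N hC hs hG hD hF hN v e).1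
  intro v
  induction v using WellFoundedLT.induction with
  | ind v ih =>
  intro e u hu hue
  obtain ⟨ch, hch, hNv⟩ := hN v e
  have hch0 : ∀ i < 2 * G + 1, ∀ c, 0 ≤ ch i c := by
    intro i hi c
    rcases hch i hi c with ⟨e', -, h⟩ | ⟨h, -⟩
    · rw [h]; exact hN0 _ _
    · rw [h]
  classical
  set τ : ℝ := 1 - ((v.val : ℝ) + 1) / D with hτ
  set F : ℝ → ℝ≥0∞ := fun t =>
    (∏ r ∈ Finset.univ.filter (fun r => low r = v), ind a s τ r (Function.update u v t)) *
      ∏ c : Ch par v, msg par low a s τ c.1 (Function.update u v t) with hFd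
  set H : ℕ → ℝ := fun i => if ∀ r, low r = v → -s r ≤ ip (a r) (X v e i) then
    ∏ c : Ch par v, (scT par G M c.1 * ch i c) else 0 with hHd
  have hH0 : ∀ i < 2 * G + 1, 0 ≤ H i := by
    intro i hi
    rw [hHd]
    simp only
    split_ifs
    · exact Finset.prod_nonneg fun c _ => mul_nonneg (hsc _).le (hch0 i hi c)
    · exact le_rfl
  -- the main claim
  have hclaim : ∀ t, F t ≠ 0 → ∃ i < 2 * G + 1,
      |ip (o v) (Function.update u v t) - ((i : ℝ) - G) / G| ≤ 1 / (2 * G) ∧
      F t ≤ ENNReal.ofReal (H i) := by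
    intro t ht
    obtain ⟨u'', h1, h2, h3⟩ := hE n ι par low a s τ hC v u t ht
    set u1 : Fin n → ℝ := Function.update u v t with hu1
    have hge : ∀ j, v < j → u'' j = u j := by
      intro j hj
      apply h2
      rintro ⟨t', ht'⟩
      have h5 := abv_le hC.1 t' (j : ℕ)
      rw [ht'] at h5
      exact absurd h5 (not_le.2 hj)
    have hge1 : ∀ j, v ≤ j → u'' j = u1 j := by
      intro j hj
      rcases hj.eq_or_lt with rfl | hj
      · rw [h1, hu1, Function.update_self]
      · rw [hge j hj, hu1, Function.update_of_ne hj.ne']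
    have hu''τ : u'' ∈ PS a s τ := by
      intro r
      by_cases hr : Abv par (low r) v
      · exact h3 r hr
      · have e1 : ip (a r) u'' = ip (a r) u := by
          apply ip_congr
          intro j hj
          apply h2
          intro hjv
          exact hr (abv_trans (hC.2.2 r j hj) hjv)
        rw [e1]
        exact hu r
    have hτ1 : τ ≤ 1 := by
      rw [hτ]
      have : 0 ≤ ((v.val : ℝ) + 1) / D := by positivity
      linarith
    have hu''1 : u'' ∈ PS a s 1 := ps_mono hs hτ1 hu''τ
    obtain ⟨i, hi, hix⟩ := exists_index G hG (ip (o v) u'') (hF.g5 v u'' hu''1).2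
    have ho : ip (o v) u'' = ip (o v) u1 := ip_congr _ _ _ fun j hj => hge1 j (hF.o1 v j hj)
    refine ⟨i, hi, by rw [← ho]; exact hix, ?_⟩
    obtain ⟨hx1, hx2⟩ := hF.x1 v e i hi ⟨u, hue⟩
    set Xp : Fin n → ℝ := X v e i with hXp
    set w : Fin n → ℝ := fun j => Xp j - u'' j with hw
    have hgu : ∀ l, ip (g v l) u'' = ip (g v l) u := fun l =>
      ip_congr _ _ _ fun j hj => hge j (hF.g1 v l j hj)
    have hw1 : ∀ l, |ip (g v l) w| ≤ 1 / (2 * G) := by
      intro l
      rw [hw, ip_sub, hx1, hgu, abs_sub_comm]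
      exact hue l
    have hw2 : |ip (o v) w| ≤ 1 / (2 * G) := by
      rw [hw, ip_sub, hx2, abs_sub_comm]
      exact hix
    obtain ⟨W, hW, hW1, hW2⟩ := hF.g6 v w hw1 hw2
    set w0 : Fin n → ℝ := fun j => w j - W j / D with hw0
    have hg0 : ∀ l, ip (g v l) w0 = 0 := by
      intro l
      rw [hw0, ip_sub, ip_div, ← hW1 l, mul_div_cancel_left₀ _ hDr.ne', sub_self]
    have ho0 : ip (o v) w0 = 0 := by
      rw [hw0, ip_sub, ip_div, ← hW2, mul_div_cancel_left₀ _ hDr.ne', sub_self]
    set u3 : Fin n → ℝ := fun j => u'' j + W j / D with hu3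
    have hXu : Xp = fun j => u3 j + w0 j := by
      funext j
      rw [hu3, hw0, hw]
      simp only
      ring
    have hu3τ : u3 ∈ PS a s (1 - (v.val : ℝ) / D) := by
      intro r
      have h5 := hu''τ r
      have h6 := hW r
      rw [hu3, ip_add, ip_div]
      have h7 : -(s r) / D ≤ ip (a r) W / D := by
        apply div_le_div_of_nonneg_right _ hDr.le
        linarith
      have h8 : -((1 - (v.val : ℝ) / D) * s r) = -(τ * s r) + -(s r) / D := by
        rw [hτ]; ring
      rw [h8]
      exact add_le_add h5 h7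
    have hu31 : u3 ∈ PS a s 1 := by
      refine ps_mono hs ?_ hu3τ
      have : 0 ≤ (v.val : ℝ) / D := by positivity
      linarith
    -- the rows
    have hrows : ∀ r, low r = v → -s r ≤ ip (a r) Xp := by
      intro r hr
      have h5 : w0 v = 0 := hF.g3 v w0 hg0 ho0
      have h6 := hF.g2 v w0 hg0 r (by rw [hr]; exact ⟨0, rfl⟩)
      have h7 : ip (a r) w0 = 0 := by
        rw [← h6]
        unfold ip
        refine Finset.sum_congr rfl fun j _ => ?_
        by_cases hvj : v < j
        · rw [if_pos hvj]
        · rw [if_neg hvj]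
          by_cases haj : a r j = 0
          · rw [haj, zero_mul]
          · have h8 := hC.2.2 r j haj
            rw [hr] at h8
            obtain ⟨t', ht'⟩ := h8
            have h9 := abv_le hC.1 t' (v : ℕ)
            rw [ht'] at h9
            have h10 : j = v := le_antisymm (not_lt.1 hvj) h9
            rw [h10, h5, mul_zero]
      have h8 := hu31 r
      rw [hXu, ip_add, h7, add_zero]
      linarith
    have hHi : H i = ∏ c : Ch par v, (scT par G M c.1 * ch i c) := by
      rw [hHd]
      simp only
      rw [if_pos hrows]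
    -- the children
    have hchild : ∀ c : Ch par v, msg par low a s τ c.1 u1 ≤
        ENNReal.ofReal (scT par G M c.1 * ch i c) := by
      intro c
      have hgc : ∀ l, ip (g c.1 l) Xp = ip (g c.1 l) u3 := by
        intro l
        rw [hXu, ip_add, hF.g4 v w0 hg0 ho0 c.1 c.2.2 l, add_zero]
      rcases hch i hi c with ⟨e', he', h⟩ | ⟨-, l, hl⟩
      · have hcv : ((c.1 : Fin n) : ℕ) + 1 ≤ (v : ℕ) := c.2.1
        have hcv' : (((c.1 : Fin n) : ℕ) : ℝ) + 1 ≤ ((v : ℕ) : ℝ) := by exact_mod_cast hcv
        have h5 : 1 - (v.val : ℝ) / D ≤ 1 - ((c.1.val : ℝ) + 1) / D := by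
          have := div_le_div_of_nonneg_right hcv' hDr.le
          linarith
        have h6 := ih c.1 c.2.1 e' u3 (ps_mono hs h5 hu3τ) (fun l => by
          rw [← hgc l]; exact he' l)
        have h7 := (hT n ι par low a s hC).2 hs (1 - (v.val : ℝ) / D)
          (1 - ((c.1.val : ℝ) + 1) / D) c.1 u3 h5
        have h8 := (hT n ι par low a s hC).1 τ (1 / D) c.1 u1 u3 (fun j => W j / D) (by
          intro r
          have h9 := hW r
          rw [ip_div]
          have h10 : -(s r) / D ≤ ip (a r) W / D := by
            apply div_le_div_of_nonneg_right _ hDr.le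
            linarith
          have h11 : -(1 / (D : ℝ) * s r) = -(s r) / D := by ring
          rw [h11]
          exact h10) (by
          intro r hr
          apply Finset.sum_eq_zero
          intro j _
          split_ifs with hcj
          · by_cases haj : a r j = 0
            · rw [haj, zero_mul]
            · have h9 := abv_par hC.1 hr (hC.2.2 r j haj) hcj
              rw [c.2.2] at h9
              have h10 : u'' j = u1 j := hge1 j h9
              rw [hu3]
              simp only
              rw [h10]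
              ring
          · rfl)
        have h9 : τ + 1 / (D : ℝ) = 1 - (v.val : ℝ) / D := by rw [hτ]; ring
        rw [h9] at h8
        rw [h]
        exact h8.trans (h7.trans h6)
      · exfalso
        have h5 := (hF.g5 c.1 u3 hu31).1 l
        rw [hgc l] at hl
        exact absurd hl (not_lt.2 h5)
    rw [hHi, ENNReal.ofReal_prod_of_nonneg fun c _ => mul_nonneg (hsc _).le (hch0 i hi c)]
    rw [hFd]
    simp only
    calc _ ≤ (1 : ℝ≥0∞) * ∏ c : Ch par v, ENNReal.ofReal (scT par G M c.1 * ch i c) := by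
            refine mul_le_mul' ?_ (Finset.prod_le_prod' fun c _ => hchild c)
            refine Finset.prod_le_one' fun r _ => ?_
            unfold ind
            split_ifs
            · exact le_rfl
            · exact zero_le
      _ = _ := one_mul _
  -- integration
  have hov : o v v = 1 / M v := by
    exact eq_one_div_of_mul_eq_one_right (hF.m1 v).2
  have hip : ∀ t, ip (o v) (Function.update u v t) =
      ip (o v) (Function.update u v 0) + t * (1 / M v) := by
    intro t
    unfold ip
    rw [← Finset.sum_erase_add _ _ (Finset.mem_univ v),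
      ← Finset.sum_erase_add (s := Finset.univ) (a := v)
        (f := fun j => o v j * Function.update u v 0 j) (Finset.mem_univ v)]
    simp only [Function.update_self, mul_zero, add_zero]
    rw [hov]
    have : ∑ x ∈ Finset.univ.erase v, o v x * Function.update u v t x =
        ∑ x ∈ Finset.univ.erase v, o v x * Function.update u v 0 x := by
      refine Finset.sum_congr rfl fun j hj => ?_
      rw [Function.update_of_ne (Finset.ne_of_mem_erase hj),
        Function.update_of_ne (Finset.ne_of_mem_erase hj)]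
    rw [this]
    ring
  set κ : ℝ := ip (o v) (Function.update u v 0) with hκ
  set T : ℕ → Set ℝ := fun i => Set.Icc (M v * (((i : ℝ) - G) / G - κ - 1 / (2 * G)))
    (M v * (((i : ℝ) - G) / G - κ + 1 / (2 * G))) with hTd
  have hvol : ∀ i, volume (T i) = ENNReal.ofReal (M v / G) := by
    intro i
    rw [hTd]
    simp only
    rw [Real.volume_Icc]
    congr 1
    field_simp
    ring
  have hbound : ∀ t, F t ≤ ∑ i ∈ Finset.range (2 * G + 1),
      (T i).indicator (fun _ => ENNReal.ofReal (H i)) t := by
    intro t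
    by_cases ht : F t = 0
    · rw [ht]; exact zero_le
    · obtain ⟨i, hi, h1, h2⟩ := hclaim t ht
      have hmem : t ∈ T i := by
        rw [hip t] at h1
        obtain ⟨h3, h4⟩ := abs_le.1 h1
        have hMv := hM v
        rw [hTd]
        constructor
        · have h5 : ((i : ℝ) - G) / G - κ - 1 / (2 * G) ≤ t * (1 / M v) := by linarith
          calc M v * (((i : ℝ) - G) / G - κ - 1 / (2 * G)) ≤ M v * (t * (1 / M v)) :=
                mul_le_mul_of_nonneg_left h5 hMv.le
            _ = t := by field_simp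
        · have h5 : t * (1 / M v) ≤ ((i : ℝ) - G) / G - κ + 1 / (2 * G) := by linarith
          calc t = M v * (t * (1 / M v)) := by field_simp
            _ ≤ M v * (((i : ℝ) - G) / G - κ + 1 / (2 * G)) :=
                mul_le_mul_of_nonneg_left h5 hMv.le
      refine h2.trans ?_
      have h3 : ENNReal.ofReal (H i) = (T i).indicator (fun _ => ENNReal.ofReal (H i)) t := by
        rw [Set.indicator_of_mem hmem]
      rw [h3]
      exact Finset.single_le_sum (f := fun i => (T i).indicator (fun _ => ENNReal.ofReal (H i)) t)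
        (fun _ _ => zero_le) (Finset.mem_range.2 hi)
  rw [msg_eq]
  calc ∫⁻ t, F t ≤ ∫⁻ t, ∑ i ∈ Finset.range (2 * G + 1),
        (T i).indicator (fun _ => ENNReal.ofReal (H i)) t := lintegral_mono hbound
    _ = ∑ i ∈ Finset.range (2 * G + 1), ∫⁻ t, (T i).indicator (fun _ => ENNReal.ofReal (H i)) t := by
        rw [lintegral_finsetSum]
        intro i _
        exact (measurable_const).indicator measurableSet_Icc
    _ = ∑ i ∈ Finset.range (2 * G + 1), ENNReal.ofReal (M v / G * H i) := by
        refine Finset.sum_congr rfl fun i hi => ?_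
        rw [lintegral_indicator measurableSet_Icc, lintegral_const, Measure.restrict_apply_univ,
          hvol i, mul_comm, ENNReal.ofReal_mul (div_nonneg (hM v).le hGr.le)]
    _ = ENNReal.ofReal (∑ i ∈ Finset.range (2 * G + 1), M v / G * H i) := by
        rw [ENNReal.ofReal_sum_of_nonneg]
        intro i hi
        exact mul_nonneg (div_nonneg (hM v).le hGr.le) (hH0 i (Finset.mem_range.1 hi))
    _ = ENNReal.ofReal (scT par G M v * N v e) := by
        congr 1
        rw [hNv, scT_eq, Finset.mul_sum]
        refine Finset.sum_congr rfl fun i _ => ?_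
        rw [hHd]
        simp only
        split_ifs
        · rw [Finset.prod_mul_distrib]
          ring
        · rw [mul_zero, mul_zero]

end

end Pool.Agent.Helper42.BW
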